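import Pool.Agent.P.MP_9c97e9_nt.All.Main

/-! The Birch and Swinnerton-Dyer formula modulo 2 for all twists of `X₀(15)` by `-n`, with `n`
squarefree and `n ≡ 3 (mod 4)`: the analytic order of the Tate-Shafarevich group is the square of
an integer, which is odd exactly when the rank is zero and the 2-primary part is trivial. -/

namespace Pool.Agent.P.MP_9c97e9_nt.Old.ModTwoAllTwists

open Pool.Agent.P.MP_9c97e9_nt Pool.Agent.P.MP_9c97e9_nt.All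

open Classical in
theorem result (n : ℕ) (hn : Squarefree n) (h4 : n % 4 = 3) :
    (∀ (p : ℕ) [Fact p.Prime], ((tw n).baseChange ℚ_[p]).IsMinimal ℤ_[p]) ∧
    Finite (AddCommGroup.torsion (Pt (tw n) ℚ)) ∧
    ∃ L : ℂ → ℂ, IsL (tw n) L ∧ ∃ m : ℕ,
      L 1 = (m : ℂ) ^ 2 * (period (tw n) : ℂ) * ((∏ᶠ p, tamagawa (tw n) p : ℕ) : ℂ) /
        (Nat.card (AddCommGroup.torsion (Pt (tw n) ℚ)) : ℂ) ^ 2 ∧
      (L 1 = 0 ↔ m = 0) ∧
      (Odd m ↔ Finite (Pt (tw n) ℚ) ∧ ∀ (k : ℕ) (x : Sha (tw n)), 2 ^ k • x = 0 → x = 0) := by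
  obtain ⟨h1, h2, L, h3, m, h5, h6⟩ := main_of (aL mLS) aTam sV sA aG2 aG3 n hn h4
  refine ⟨h1, h2, L, h3, m, h5, ?_, h6⟩
  have h7 := (Nat.card_pos (α := AddCommGroup.torsion (Pt (tw n) ℚ))).ne'
  rw [h5, aTam n hn h4]
  simp [(period_pos h4).ne', TP_ne_zero n, h7]

end Pool.Agent.P.MP_9c97e9_nt.Old.ModTwoAllTwists
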