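import Pool.Agent.P.MP_8b7eba_nt.R2.Main2
import Pool.Agent.P.MP_8b7eba_nt.R2.TMIN
import Pool.Agent.P.MP_8b7eba_nt.R2.TMIS

/-! Rank zero implies `L(E,1) ≠ 0` for the twists of `X₀(15)` by `d` in four residue classes
modulo 120, both signs, when the 2-primary part of the Tate-Shafarevich group has corank at most
one. -/

namespace Pool.Agent.P.MP_9c97e9_nt.Old.RankZeroConverse

open Pool.Agent.P.MP_9c97e9_nt Pool.Agent.P.MP_8b7eba_nt Classical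
open Pool.Agent.P.MP_8b7eba_nt.R2 (twd)

theorem result (d : ℤ) (hsq : Squarefree d) (h8 : d % 8 = 5) (h5 : d % 5 = 2 ∨ d % 5 = 3)
    (h3 : ¬ 3 ∣ d) :
    (∀ (p : ℕ) [Fact p.Prime], ((twd d).baseChange ℚ_[p]).IsMinimal ℤ_[p]) ∧
    (∃ L : ℂ → ℂ, IsL (twd d) L) ∧
    ((∃ k : ℕ, ∀ φ : ZMod (2 ^ k) × ZMod (2 ^ k) →+ Sha (twd d), ¬ Function.Injective φ) →
      Module.rank ℤ (Pt (twd d) ℚ) = 0 → ∀ L : ℂ → ℂ, IsL (twd d) L → L 1 ≠ 0) := by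
  have h4 : d % 4 = 1 := by omega
  obtain ⟨τ, -, L, e2, e3, -⟩ := Mod.exists_L_chi (R2.adm_of hsq h8 (R2.cop_of h5 h3))
  refine ⟨fun p _ => R2.twd_minimal hsq h4 p, ⟨L, R2.twd_isL h4 e2 e3⟩,
    fun ⟨k, hk⟩ h0 L' hL e => ?_⟩
  obtain ⟨ι, hι⟩ := R2.twd_sha h4
  obtain rfl := R2.isL_uniq hL (R2.twd_isL h4 e2 e3)
  exact R2.twd_rank h8 (R2.main2 d hsq h8 h5 h3 ⟨k, fun φ hφ => hk (ι.comp φ) (hι.comp hφ)⟩
    (Mod.isL_twist h4 e2 e3) (mul_eq_zero_of_left e _)) h0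

end Pool.Agent.P.MP_9c97e9_nt.Old.RankZeroConverse
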