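import Pool.Agent.P.MP_9c97e9_nt.KT.Main

/-! The 2-part of the Birch and Swinnerton-Dyer formula for all twists of `X₀(15)` by `-n`, with
`n` squarefree, prime to 15 and `n ≡ 3 (mod 4)`: the analytic order of the Tate-Shafarevich group
is the square of an integer `m`, which is nonzero exactly when the group of points and the
2-primary part of the Tate-Shafarevich group are finite, and then the order of the 2-primary part
is the 2-part of `m ^ 2`. -/

namespace Pool.Agent.P.MP_9c97e9_nt.Old.TwoPartExact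

open Pool.Agent.P.MP_9c97e9_nt

open Classical in
theorem result (n : ℕ) (hn : Squarefree n) (h4 : n % 4 = 3) (h15 : n.Coprime 15) :
    (∀ (p : ℕ) [Fact p.Prime], ((tw n).baseChange ℚ_[p]).IsMinimal ℤ_[p]) ∧
    Finite (AddCommGroup.torsion (Pt (tw n) ℚ)) ∧
    ∃ L : ℂ → ℂ, IsL (tw n) L ∧ ∃ m : ℕ,
      L 1 = (m : ℂ) ^ 2 * (period (tw n) : ℂ) * ((∏ᶠ p, tamagawa (tw n) p : ℕ) : ℂ) /
        (Nat.card (AddCommGroup.torsion (Pt (tw n) ℚ)) : ℂ) ^ 2 ∧
      (L 1 = 0 ↔ m = 0) ∧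
      (m ≠ 0 ↔ Finite (Pt (tw n) ℚ) ∧ Finite (AddCommGroup.primaryComponent (Sha (tw n)) 2)) ∧
      (m ≠ 0 → Nat.card (AddCommGroup.primaryComponent (Sha (tw n)) 2) =
        (2 ^ padicValNat 2 m) ^ 2) :=
  KT.z_MAIN n hn h4 h15

end Pool.Agent.P.MP_9c97e9_nt.Old.TwoPartExact
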